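import Pool.Agent.helper64.PB.SpecA

/-!
# pb:CLP (MP_069684_lc): the closed class is closed under composition
-/

set_option autoImplicit false

namespace Pool.Agent.PB

theorem CLP (hCMP : CMP_stmt) : CLP_stmt := by
  refine ⟨fun G n j => ⟨0, [], Prog.nil, le_rfl, Or.inr ⟨j, rfl⟩⟩, ?_⟩
  intro G m n F φ hF h
  obtain ⟨s, hs⟩ := hF
  choose t ht using h
  exact ⟨_, hCMP G m n F φ s t hs ht⟩

end Pool.Agent.PB
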