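import Pool.Agent.helper64.PB.SpecF

set_option autoImplicit false

namespace Pool.Agent.PB

open Finset Polynomial

theorem FPO_col {K : Type} [Field K] [Fintype K] [DecidableEq K] {c : ℕ} (a : Fin (c + 1) → K) (α : K) :
    col (univ.filter fun z : K × K => z.2 = pol a z.1) α = {pol a α} := by
  ext y
  simp [col]

theorem FPO : FPO_stmt := by
  intro K _ _ _ c J a x hx
  refine ⟨univ.filter fun z : K × K => z.2 = pol a z.1, ?_, ?_, ?_⟩
  · intro z hz
    have hz2 := (Finset.mem_filter.mp hz).2
    have h1 := hx z.1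
    rw [← hz2] at h1
    exact h1
  · intro α
    rw [FPO_col]
    simp
  · intro j _ _
    refine ⟨(∑ i : Fin (c + 1), C (a i) * X ^ (i : ℕ)) ^ j, ?_, ?_⟩
    · refine natDegree_pow_le.trans ?_
      have h1 : (∑ i : Fin (c + 1), C (a i) * X ^ (i : ℕ)).natDegree ≤ c := by
        refine natDegree_sum_le_of_forall_le _ _ ?_
        intro i _
        refine (natDegree_C_mul_X_pow_le _ _).trans ?_
        have := i.2
        omega
      calc j * (∑ i : Fin (c + 1), C (a i) * X ^ (i : ℕ)).natDegree ≤ j * c := Nat.mul_le_mul_left _ h1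
        _ = c * j := Nat.mul_comm _ _
    · intro α
      rw [FPO_col]
      simp [pol, eval_pow, eval_finset_sum]

end Pool.Agent.PB
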