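import Pool.Agent.helper64.PB.SpecW

/-!
# pb:S12 (MP_069684_lc): functions with `Inter k` and value 1 at the vector of ones
-/

set_option autoImplicit false

namespace Pool.Agent.PB

theorem S12 (hBKP : BKP_stmt) (hRTP : RTP_stmt) (hDNF : DNF_stmt) : S12_stmt := by
  intro G k hk hM hT n f hI h1
  obtain ⟨i, _⟩ := hI (fun _ _ => true) (fun _ => h1)
  have hn : 1 ≤ n := Nat.lt_of_le_of_lt (Nat.zero_le _) i.2
  obtain ⟨t, ⟨s', ht⟩, hft⟩ := hBKP G k hk hT n hn f hI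
  obtain ⟨s, hs⟩ := hDNF.1 n f
  obtain ⟨c, hc⟩ := hRTP G hM
  exact ⟨_, hc n hn t f s s' ht hft h1 hs⟩

end Pool.Agent.PB
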