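import Pool.Agent.helper64.PB.SpecB

/-!
# pb:NMM (MP_069684_lc): a non-monotone function has a non-monotone ternary minor
-/

set_option autoImplicit false

namespace Pool.Agent.PB

theorem NMM : NMM_stmt := by
  intro n f hf
  unfold Mono at hf
  push Not at hf
  obtain ⟨x, y, hxy, hx, hy⟩ := hf
  refine ⟨fun i => if x i = true then 0 else if y i = true then 2 else 1, ?_, ?_⟩
  · have h : (fun i => (![true, false, false] : Fin 3 → Bool)
        (if x i = true then 0 else if y i = true then 2 else 1)) = x := by
      funext i
      by_cases h1 : x i = true
      · rw [if_pos h1, h1]; rfl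
      · rw [if_neg h1]
        simp only [Bool.not_eq_true] at h1
        by_cases h2 : y i = true
        · rw [if_pos h2, h1]; rfl
        · rw [if_neg h2, h1]; rfl
    rw [h]
    exact hx
  · have h : (fun i => (![true, false, true] : Fin 3 → Bool)
        (if x i = true then 0 else if y i = true then 2 else 1)) = y := by
      funext i
      by_cases h1 : x i = true
      · rw [if_pos h1, hxy i h1]; rfl
      · rw [if_neg h1]
        by_cases h2 : y i = true
        · rw [if_pos h2, h2]; rfl
        · rw [if_neg h2]
          simp only [Bool.not_eq_true] at h2
          rw [h2]; rfl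
    rw [h]
    simpa using hy

end Pool.Agent.PB
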